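import Pool.Agent.W574.SM.Bracket

set_option autoImplicit false
set_option linter.unusedSectionVars false
set_option linter.unusedVariables false

/-! # The relation between the residues at a blow-up, twisted version

This is `Pool.Agent.W574.SM.bracket` with an additional divisibility condition. -/

namespace Pool.Agent.Helper748.TZ

open Polynomial Pool.Agent.W574.SM

theorem pair_tw {e a x y : ℕ} (he : e ∣ a) (hxy : x + y = a) {p q : ℂ} (hp : p ≠ 0)
    (h : p + q = 0) : (if e ∣ x then 1 / p else 0) + (if e ∣ y then 1 / q else 0) = 0 := by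
  have hiff : e ∣ x ↔ e ∣ y := by
    rw [← hxy] at he
    constructor
    · intro hx
      exact (Nat.dvd_add_right hx).1 he
    · intro hy
      exact (Nat.dvd_add_left hy).1 he
  by_cases hx : e ∣ x
  · rw [if_pos hx, if_pos (hiff.1 hx)]
    exact inv_add p q hp h
  · rw [if_neg hx, if_neg (fun hy => hx (hiff.2 hy)), add_zero]

theorem bracket_tw (P : ℂ[X]) (hP : P ≠ 0) (m a0 n0 a1 n1 : ℕ) (hPm : P.natDegree ≤ m) (hm : 1 ≤ m)
    (hn0 : 1 ≤ n0) (hn1 : 1 ≤ n1) (S : Finset ℂ) (h0S : 0 ∈ S) (hS : ∀ c ∉ S, P.eval c ≠ 0)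
    (h0 : 0 < a1 + P.rootMultiplicity 0 →
      (n1 - 1) * (a0 + a1 + m) < (n0 + n1) * (a1 + P.rootMultiplicity 0))
    (h0' : a1 = 0 → n1 = 1)
    (hI : 0 < a0 + (m - P.natDegree) →
      (n0 - 1) * (a0 + a1 + m) < (n0 + n1) * (a0 + (m - P.natDegree)))
    (hI' : a0 = 0 → n0 = 1) (β : ℂ) (hβ : β ≠ 0) (A : ℂ[X]) (hA : A ≠ 0) (s : ℂ)
    (hs : s = -((n0 + n1 : ℕ) : ℂ) / ((a0 + a1 + m : ℕ) : ℂ))
    (hsol : (X ^ a1 * P) * derivative A + C s * derivative (X ^ a1 * P) * A
      = C β * X ^ (n1 - 1) * (X ^ a1 * P)) :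
    (n1 : ℂ) + s * ((a1 + P.rootMultiplicity 0 : ℕ) : ℂ) ≠ 0 ∧
    (n0 : ℂ) + s * ((a0 + (m - P.natDegree) : ℕ) : ℂ) ≠ 0 ∧
    (∀ c, c ≠ 0 → 1 + s * (P.rootMultiplicity c : ℂ) ≠ 0) ∧
    (∀ e : ℕ, e ∣ a0 + a1 + m →
      (if e ∣ a0 + (m - P.natDegree) then
          1 / ((n0 : ℂ) + s * ((a0 + (m - P.natDegree) : ℕ) : ℂ)) else 0) +
        (if e ∣ a1 + P.rootMultiplicity 0 then
          1 / ((n1 : ℂ) + s * ((a1 + P.rootMultiplicity 0 : ℕ) : ℂ)) else 0) +
        ∑ c ∈ S.erase 0, (if e ∣ P.rootMultiplicity c then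
          1 / (1 + s * (P.rootMultiplicity c : ℂ)) else 0) + 1 - S.card = 0) := by
  classical
  set Q : ℂ[X] := X ^ a1 * P with hQ
  have hQ0 : Q ≠ 0 := mul_ne_zero (pow_ne_zero _ X_ne_zero) hP
  set a := a0 + a1 + m with ha
  set n := n0 + n1 with hn
  set q0 := a1 + P.rootMultiplicity 0 with hq0
  set qI := a0 + (m - P.natDegree) with hqI
  have hapos : 0 < a := by omega
  have hac : (a : ℂ) ≠ 0 := Nat.cast_ne_zero.2 hapos.ne'
  have hQdeg : Q.natDegree = a1 + P.natDegree := by
    rw [hQ, natDegree_mul (pow_ne_zero _ X_ne_zero) hP, natDegree_X_pow]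
  have hloc : ∀ c, (A.rootMultiplicity c = ec (n1 - 1) c + 1 ∧
      A.rootMultiplicity c * a ≠ n * Q.rootMultiplicity c) ∨
      (A.rootMultiplicity c ≤ ec (n1 - 1) c ∧
      A.rootMultiplicity c * a = n * Q.rootMultiplicity c) := by
    intro c
    have h1 := sol_local A 1 Q hA one_ne_zero hQ0 s β hβ (n1 - 1) (by
      simp only [derivative_one, mul_one, mul_zero, sub_zero, one_pow]
      exact hsol) c
    have h2 : (1 : ℂ[X]).rootMultiplicity c = 0 := by
      apply rootMultiplicity_eq_zero
      simp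
    rw [h2] at h1
    have h3 : ((A.rootMultiplicity c : ℂ) - (0 : ℕ) + s * Q.rootMultiplicity c = 0) ↔
        A.rootMultiplicity c * a = n * Q.rootMultiplicity c := by
      rw [hs, ← Nat.cast_inj (R := ℂ)]
      push_cast
      rw [sub_zero]
      field_simp
      constructor
      · intro h; linear_combination h
      · intro h; linear_combination h
    rcases h1 with h1 | h1
    · left
      exact ⟨by omega, fun h => h1.2 (h3.2 h)⟩
    · right
      exact ⟨by omega, h3.1 h1.2⟩
  have hinf : (A.natDegree = n1 ∧ A.natDegree * a ≠ n * Q.natDegree) ∨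
      (n1 < A.natDegree ∧ A.natDegree * a = n * Q.natDegree) := by
    have h1 := sol_infty A Q hA hQ0 s β hβ (n1 - 1) hsol
    have h3 : ((A.natDegree : ℂ) + s * Q.natDegree = 0) ↔
        A.natDegree * a = n * Q.natDegree := by
      rw [hs, ← Nat.cast_inj (R := ℂ)]
      push_cast
      field_simp
      constructor
      · intro h; linear_combination h
      · intro h; linear_combination h
    rcases h1 with h1 | h1
    · left
      exact ⟨by omega, fun h => h1.2 (h3.2 h)⟩
    · right
      exact ⟨by omega, h3.1 h1.2⟩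
  -- at zero
  have hQ00 : Q.rootMultiplicity 0 = q0 := rm_zero P hP a1
  have hQc : ∀ c, c ≠ 0 → Q.rootMultiplicity c = P.rootMultiplicity c := fun c hc =>
    rm_ne P hP a1 c hc
  have F0 : (A.rootMultiplicity 0 = n1 ∧ n1 * a ≠ n * q0) ∨
      (q0 = 0 ∧ n1 = 1 ∧ A.rootMultiplicity 0 = 0) := by
    have h1 := hloc 0
    rw [hQ00, ec, if_pos rfl] at h1
    rcases h1 with h1 | h1
    · left
      have h2 : A.rootMultiplicity 0 = n1 := by omega
      rw [h2] at h1
      exact ⟨h2, h1.2⟩
    · right
      by_cases hq : 0 < q0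
      · exfalso
        have h2 := h0 hq
        have h3 : A.rootMultiplicity 0 * a ≤ (n1 - 1) * a := Nat.mul_le_mul_right a h1.1
        omega
      · have h2 : n1 = 1 := h0' (by omega)
        exact ⟨by omega, h2, by omega⟩
  have Fc : ∀ c, c ≠ 0 → P.rootMultiplicity c ≠ 0 → A.rootMultiplicity c = 1 := by
    intro c hc hc2
    have h1 := hloc c
    rw [hQc c hc, ec, if_neg hc] at h1
    rcases h1 with h1 | h1
    · exact h1.1
    · exfalso
      have h2 : A.rootMultiplicity c = 0 := by omega
      rw [h2, zero_mul] at h1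
      rcases Nat.mul_eq_zero.1 h1.2.symm with h3 | h3
      · omega
      · exact hc2 h3
  have Fc2 : ∀ c, c ≠ 0 → a ≠ n * P.rootMultiplicity c := by
    intro c hc
    have h1 := hloc c
    rw [hQc c hc, ec, if_neg hc] at h1
    rcases h1 with h1 | h1
    · intro h
      apply h1.2
      rw [h1.1, zero_add, one_mul]
      exact h
    · have h2 : A.rootMultiplicity c = 0 := by omega
      rw [h2, zero_mul] at h1
      rw [← h1.2]
      omega
  have hqq : Q.natDegree + qI = a := by omega
  have FI : (A.natDegree = n1 ∧ n1 * a ≠ n * Q.natDegree) ∨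
      (A.natDegree = n1 + 1 ∧ n0 = 1 ∧ qI = 0) := by
    rcases hinf with h1 | h1
    · left
      have h2 := h1.2
      rw [h1.1] at h2
      exact ⟨h1.1, h2⟩
    · right
      by_cases hq : 0 < qI
      · exfalso
        have h2 := hI hq
        have h3 : n * Q.natDegree + n * qI = n * a := by rw [← Nat.mul_add, hqq]
        have h4 : (n1 + 1) * a ≤ A.natDegree * a := Nat.mul_le_mul_right a h1.1
        have h5 : n * a = (n1 + 1) * a + (n0 - 1) * a := by
          rw [← Nat.add_mul]
          congr 1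
          omega
        omega
      · have h2 : n0 = 1 := hI' (by omega)
        have h3 : Q.natDegree = a := by omega
        rw [h3] at h1
        have h4 := Nat.eq_of_mul_eq_mul_right hapos h1.2
        exact ⟨by omega, h2, by omega⟩
  -- the special points
  set T := (S.erase 0).filter (fun c => P.rootMultiplicity c ≠ 0) with hT
  have hT0 : ∀ c ∈ T, c ≠ 0 ∧ P.rootMultiplicity c ≠ 0 := by
    intro c hc
    rw [hT, Finset.mem_filter, Finset.mem_erase] at hc
    exact ⟨hc.1.1, hc.2⟩
  have hK : A.rootMultiplicity 0 + T.card ≤ A.natDegree := by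
    have h1 := sum_mult_le A hA (insert 0 T)
    rw [Finset.sum_insert (fun h => (hT0 0 h).1 rfl), Finset.sum_congr rfl fun c hc =>
      Fc c (hT0 c hc).1 (hT0 c hc).2] at h1
    simpa using h1
  have hdeg : P.rootMultiplicity 0 + ∑ c ∈ T, P.rootMultiplicity c = P.natDegree := by
    rw [← sum_mult P hP S hS, ← Finset.add_sum_erase S _ h0S, hT, Finset.sum_filter_ne_zero]
  have hsum : qI + q0 + ∑ c ∈ T, P.rootMultiplicity c = a := by omega
  set αI : ℂ := (n0 : ℂ) + s * (qI : ℂ) with hαI
  set α0 : ℂ := (n1 : ℂ) + s * (q0 : ℂ) with hα0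
  have hrel : αI + α0 + ∑ c ∈ T, s * (P.rootMultiplicity c : ℂ) = 0 := by
    have h1 : s * a = -(n : ℂ) := by rw [hs]; field_simp
    have h2 : (a : ℂ) = qI + q0 + ∑ c ∈ T, (P.rootMultiplicity c : ℂ) := by
      rw [← hsum]; push_cast; rfl
    rw [← Finset.mul_sum, hαI, hα0]
    rw [h2, hn] at h1
    push_cast at h1
    linear_combination h1
  have hαI0 : αI ≠ 0 := by
    rw [hαI, hs]
    rcases FI with h1 | h1
    · intro h2
      apply h1.2
      have h3 : (n0 : ℂ) * a = n * qI := by
        field_simp at h2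
        linear_combination h2
      have h4 : n0 * a = n * qI := by exact_mod_cast h3
      have h5 : n * Q.natDegree + n * qI = n0 * a + n1 * a := by
        rw [← Nat.mul_add, hqq, hn, Nat.add_mul]
      omega
    · rw [h1.2.1, h1.2.2]
      simp
  have hα00 : α0 ≠ 0 := by
    rw [hα0, hs]
    rcases F0 with h1 | h1
    · intro h2
      apply h1.2
      have h3 : (n1 : ℂ) * a = n * q0 := by
        field_simp at h2
        linear_combination h2
      exact_mod_cast h3
    · rw [h1.1, h1.2.1]
      simp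
  have hαc : ∀ c, c ≠ 0 → 1 + s * (P.rootMultiplicity c : ℂ) ≠ 0 := by
    intro c hc h2
    apply Fc2 c hc
    have h3 : (a : ℂ) = n * P.rootMultiplicity c := by
      rw [hs] at h2
      field_simp at h2
      linear_combination h2
    exact_mod_cast h3
  refine ⟨hα00, hαI0, hαc, fun e he => ?_⟩
  have hsumT : ∑ c ∈ S.erase 0, (if e ∣ P.rootMultiplicity c then
        1 / (1 + s * (P.rootMultiplicity c : ℂ)) else 0)
      = ∑ c ∈ T, (if e ∣ P.rootMultiplicity c then
        1 / (1 + s * (P.rootMultiplicity c : ℂ)) else 0) + ((S.card : ℂ) - 1 - T.card) := by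
    rw [← Finset.sum_filter_add_sum_filter_not (S.erase 0) (fun c => P.rootMultiplicity c ≠ 0),
      ← hT]
    congr 1
    have h1 : ∀ c ∈ (S.erase 0).filter (fun c => ¬ P.rootMultiplicity c ≠ 0),
        (if e ∣ P.rootMultiplicity c then 1 / (1 + s * (P.rootMultiplicity c : ℂ)) else 0)
          = 1 := by
      intro c hc
      rw [Finset.mem_filter, not_not] at hc
      rw [hc.2, if_pos (dvd_zero e)]
      simp
    rw [Finset.sum_congr rfl h1, Finset.sum_const, nsmul_eq_mul, mul_one]
    have h2 := Finset.card_filter_add_card_filter_not (s := S.erase 0)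
      (fun c => P.rootMultiplicity c ≠ 0)
    rw [← hT, Finset.card_erase_of_mem h0S] at h2
    have h3 : 1 ≤ S.card := Finset.card_pos.2 ⟨0, h0S⟩
    have h4 : T.card + ((S.erase 0).filter (fun c => ¬ P.rootMultiplicity c ≠ 0)).card + 1
      = S.card := by omega
    rw [← h4]
    push_cast
    ring
  rw [hsumT]
  have hK3 : T.card ≤ 2 := by omega
  have hcase : T.card = 0 ∨ T.card = 1 ∨ T.card = 2 := by omega
  rcases hcase with h1 | h1 | h1
  · rw [Finset.card_eq_zero] at h1
    rw [h1, Finset.sum_empty, add_zero] at hrel hsum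
    rw [h1, Finset.sum_empty, Finset.card_empty]
    have h2 := pair_tw he hsum hαI0 hrel
    push_cast
    linear_combination h2
  · obtain ⟨c, hc⟩ := Finset.card_eq_one.1 h1
    rw [hc, Finset.sum_singleton] at hrel hsum
    rw [hc, Finset.sum_singleton, Finset.card_singleton]
    have h3 : (αI = 1 ∧ qI = 0) ∨ (α0 = 1 ∧ q0 = 0) := by
      rcases FI with h4 | h4
      · rcases F0 with h5 | h5
        · omega
        · right
          refine ⟨?_, h5.1⟩
          rw [hα0, h5.1, h5.2.1]
          simp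
      · left
        refine ⟨?_, h4.2.2⟩
        rw [hαI, h4.2.1, h4.2.2]
        simp
    rcases h3 with h3 | h3
    · have h4 := pair_tw (x := q0) (y := P.rootMultiplicity c) he
        (by rw [h3.2] at hsum; omega) hα00
        (q := 1 + s * (P.rootMultiplicity c : ℂ)) (by
        rw [h3.1] at hrel; linear_combination hrel)
      rw [h3.1, h3.2, if_pos (dvd_zero e)]
      push_cast
      linear_combination h4
    · have h4 := pair_tw (x := qI) (y := P.rootMultiplicity c) he
        (by rw [h3.2] at hsum; omega) hαI0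
        (q := 1 + s * (P.rootMultiplicity c : ℂ)) (by
        rw [h3.1] at hrel; linear_combination hrel)
      rw [h3.1, h3.2, if_pos (dvd_zero e)]
      push_cast
      linear_combination h4
  · obtain ⟨c, d, hcd, hc⟩ := Finset.card_eq_two.1 h1
    rw [hc, Finset.sum_pair hcd] at hrel hsum
    rw [hc, Finset.sum_pair hcd, Finset.card_pair hcd]
    have hcT : c ∈ T := by rw [hc]; simp
    have h3 : (αI = 1 ∧ qI = 0) ∧ (α0 = 1 ∧ q0 = 0) := by
      rcases FI with h4 | h4
      · exfalso
        omega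
      · rcases F0 with h5 | h5
        · exfalso
          omega
        · refine ⟨⟨?_, h4.2.2⟩, ⟨?_, h5.1⟩⟩
          · rw [hαI, h4.2.1, h4.2.2]
            simp
          · rw [hα0, h5.1, h5.2.1]
            simp
    have h4 := pair_tw (x := P.rootMultiplicity c) (y := P.rootMultiplicity d) he
      (by rw [h3.1.2, h3.2.2] at hsum; omega)
      (p := 1 + s * (P.rootMultiplicity c : ℂ)) (q := 1 + s * (P.rootMultiplicity d : ℂ))
      (hαc c (hT0 c hcT).1) (by rw [h3.1.1, h3.2.1] at hrel; linear_combination hrel)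
    rw [h3.1.1, h3.2.1, h3.1.2, h3.2.2, if_pos (dvd_zero e)]
    push_cast
    linear_combination h4

end Pool.Agent.Helper748.TZ
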