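import Pool.Agent.W574.SM.Node
import Pool.Agent.helper748_tw.Bracket

set_option autoImplicit false
set_option linter.unusedSectionVars false
set_option linter.unusedVariables false

/-! # The residues at a blow-up, twisted version

This is `Pool.Agent.W574.SM.blow_analysis` with an additional divisibility condition. -/

namespace Pool.Agent.Helper748.TZ

open Polynomial Pool.Agent.W574.SM

variable {ι : Type} [Fintype ι] [DecidableEq ι]

theorem blow_tw (f : ι → MP) (b : ℂ[X]) (hb : IsFunctionalEq f b) (g : ι → MP)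
    (a0 n0 a1 n1 : ℕ) (hn0 : 1 ≤ n0) (hn1 : 1 ≤ n1) (hgeom : Geom f g a0 n0 a1 n1)
    (m : ℕ) (hm : 1 ≤ m) (gc : ℂ → ι → MP) (gI : ι → MP)
    (hgc : ∀ c j, MvPolynomial.aeval (chart c) (g j) = MvPolynomial.X 0 ^ m * gc c j)
    (hgI : ∀ j, MvPolynomial.aeval chartI (g j) = MvPolynomial.X 1 ^ m * gI j)
    (S : Finset ℂ) (h0S : 0 ∈ S)
    (hS : ∀ c ∉ S, ∃ j, MvPolynomial.constantCoeff (gc c j) ≠ 0)
    (hJ1 : (n0 - 1) * m ≤ a0 ∧ (n1 - 1) * m ≤ a1)
    (hJ2 : 0 < a0 → (n0 - 1) * a1 < a0 * n1) (hJ2' : 0 < a1 → (n1 - 1) * a0 < a1 * n0)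
    (hz0 : a0 = 0 → n0 = 1) (hz1 : a1 = 0 → n1 = 1) (s0 : ℂ) (hs0 : b.eval s0 ≠ 0)
    (hA : ((n0 + n1 : ℕ) : ℂ) + ((a0 + a1 + m : ℕ) : ℂ) * s0 = 0) :
    ∃ (μ : ℂ → ℕ) (μI : ℕ), (∀ c, Ord0 (gc c) (μ c)) ∧ Ord1 gI μI ∧
      (n1 : ℂ) + s0 * ((a1 + μ 0 : ℕ) : ℂ) ≠ 0 ∧ (n0 : ℂ) + s0 * ((a0 + μI : ℕ) : ℂ) ≠ 0 ∧
      (∀ c, c ≠ 0 → 1 + s0 * (μ c : ℂ) ≠ 0) ∧
      (∀ e : ℕ, e ∣ a0 + a1 + m →
        (if e ∣ a0 + μI then 1 / ((n0 : ℂ) + s0 * ((a0 + μI : ℕ) : ℂ)) else 0) +
          (if e ∣ a1 + μ 0 then 1 / ((n1 : ℂ) + s0 * ((a1 + μ 0 : ℕ) : ℂ)) else 0) +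
          ∑ c ∈ S.erase 0, (if e ∣ μ c then 1 / (1 + s0 * (μ c : ℂ)) else 0) + 1 - S.card = 0) := by
  classical
  obtain ⟨ξ, W, W', hW, hW', hf, hJ⟩ := hgeom
  obtain ⟨hf0, hJ0⟩ := geom_chart_aux f g (gc 0) a0 n0 a1 n1 hn0 hn1 ξ W W' hf hJ m 0 (hgc 0)
  rw [map_zero, add_zero] at hJ0
  simp only [map_zero, add_zero] at hf0
  set ξ0 : Fin 2 → MP := fun i => MvPolynomial.aeval (chart 0) (ξ i) with hξ0
  set a := a0 + a1 + m with ha
  set n := n0 + n1 with hn
  have hapos : 0 < a := by omega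
  have hac : (a : ℂ) ≠ 0 := Nat.cast_ne_zero.2 hapos.ne'
  have hs : s0 = -(n : ℂ) / a := by
    rw [eq_div_iff hac]
    linear_combination hA
  set P : ι → ℂ[X] := fun j => res0 (gc 0 j) with hP
  have hPc : ∀ c j, res0 (gc c j) = (P j).comp (X + C c) := fun c j =>
    res0_chart (g j) (gc 0 j) (gc c j) m c (hgc 0 j) (hgc c j)
  have hPS : ∀ c ∉ S, ∃ j, (P j).eval c ≠ 0 := by
    intro c hc
    obtain ⟨j, hj⟩ := hS c hc
    refine ⟨j, ?_⟩
    rw [← coeff_res0, hPc, coeff_zero_eq_eval_zero, eval_comp] at hj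
    simpa using hj
  obtain ⟨c1, hc1⟩ := Infinite.exists_notMem_finset S
  obtain ⟨j0, hj0⟩ := hPS c1 hc1
  have hPj0 : P j0 ≠ 0 := by
    intro h
    rw [h, eval_zero] at hj0
    exact hj0 rfl
  set w := MvPolynomial.constantCoeff W with hw
  set w' := MvPolynomial.constantCoeff W' with hw'
  set G : ι → MP := fun j => MvPolynomial.X 1 ^ a1 * MvPolynomial.aeval (chart 0) W * gc 0 j
    with hG
  set Jp : MP := MvPolynomial.X 1 ^ (n1 - 1) * MvPolynomial.aeval (chart 0) W' with hJp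
  have hresG : ∀ j, res0 (G j) = C w * (X ^ a1 * P j) := by
    intro j
    rw [hG]
    simp only
    rw [map_mul, map_mul, map_pow, res0_X1, res0_chart_const]
    ring
  have hresJ : res0 Jp = C w' * X ^ (n1 - 1) := by
    rw [hJp, map_mul, map_pow, res0_X1, res0_chart_const]
    ring
  -- the leading forms are proportional
  have hprop : ∀ i, ∃ lam : ℂ, P i = C lam * P j0 := by
    intro i
    by_cases hWr : derivative (P i) * P j0 - P i * derivative (P j0) = 0
    · exact prop_of_wronskian (P i) (P j0) hPj0 hWr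
    · exfalso
      have hne : X * (P j0 * (derivative (P i) * P j0 - P i * derivative (P j0))) ≠ 0 :=
        mul_ne_zero X_ne_zero (mul_ne_zero hPj0 hWr)
      obtain ⟨c, hc⟩ : ∃ c : ℂ,
          (X * (P j0 * (derivative (P i) * P j0 - P i * derivative (P j0)))).eval c ≠ 0 := by
        by_contra hall
        push Not at hall
        exact hne (Polynomial.funext (fun x => by rw [hall x, eval_zero]))
      rw [eval_mul, eval_mul, eval_X] at hc
      have hc0 : c ≠ 0 := left_ne_zero_of_mul hc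
      have hcP : (P j0).eval c ≠ 0 := left_ne_zero_of_mul (right_ne_zero_of_mul hc)
      have hcW : (derivative (P i) * P j0 - P i * derivative (P j0)).eval c ≠ 0 :=
        right_ne_zero_of_mul (right_ne_zero_of_mul hc)
      apply hs0
      rw [hs]
      refine plane_rees f b hb ξ0 a n hapos (by omega) G hf0 Jp hJ0 c ?_ j0 i ?_ ?_
      · rw [← eval_res0, hresJ, eval_mul, eval_C, eval_pow, eval_X]
        exact mul_ne_zero hW' (pow_ne_zero _ hc0)
      · rw [← eval_res0, hresG, eval_mul, eval_C, eval_mul, eval_pow, eval_X]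
        exact mul_ne_zero hW (mul_ne_zero (pow_ne_zero _ hc0) hcP)
      · rw [← eval_res0, map_sub, map_mul res0 (MvPolynomial.pderiv 1 (G i)) (G j0),
          map_mul res0 (G i) (MvPolynomial.pderiv 1 (G j0)), res0_pderiv, res0_pderiv, hresG,
          hresG]
        have h1 : derivative (C w * (X ^ a1 * P i)) * (C w * (X ^ a1 * P j0))
            - C w * (X ^ a1 * P i) * derivative (C w * (X ^ a1 * P j0))
            = C w ^ 2 * (X ^ a1) ^ 2 *
              (derivative (P i) * P j0 - P i * derivative (P j0)) := by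
          simp only [derivative_mul, derivative_C]
          ring
        rw [h1, eval_mul, eval_mul, eval_pow, eval_pow, eval_C, eval_pow, eval_X]
        exact mul_ne_zero (mul_ne_zero (pow_ne_zero _ hW) (pow_ne_zero _ (pow_ne_zero _ hc0))) hcW
  choose lam hlam using hprop
  -- there is a rational solution
  have hsol : ∃ R : RatFunc ℂ, dR R + algebraMap ℂ (RatFunc ℂ) (-(n : ℂ) / a) *
      (dR (resM RatFunc.X (G j0)) * (resM RatFunc.X (G j0))⁻¹) * R = resM RatFunc.X Jp := by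
    by_contra hno
    push Not at hno
    apply hs0
    rw [hs]
    refine tw_root dR RatFunc.X ?_ f b hb ξ0 a n hapos (by omega) G hf0 Jp hJ0 ?_ j0 ?_ hno
    · rw [← RatFunc.algebraMap_X, dR_algebraMap, derivative_X, map_one]
    · rw [resM_eq, hresJ]
      exact am_ne (mul_ne_zero (C_ne_zero.2 hW') (pow_ne_zero _ X_ne_zero))
    · rw [resM_eq, hresG]
      exact am_ne (mul_ne_zero (C_ne_zero.2 hW) (mul_ne_zero (pow_ne_zero _ X_ne_zero) hPj0))
  obtain ⟨R, hR⟩ := hsol
  set Q : ℂ[X] := X ^ a1 * P j0 with hQ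
  have hQ0 : Q ≠ 0 := mul_ne_zero (pow_ne_zero _ X_ne_zero) hPj0
  have hR' : dR R + algebraMap ℂ (RatFunc ℂ) (-(n : ℂ) / a) *
      (dR (algebraMap ℂ[X] (RatFunc ℂ) Q) * (algebraMap ℂ[X] (RatFunc ℂ) Q)⁻¹) * R
        = algebraMap ℂ[X] (RatFunc ℂ) (C w' * X ^ (n1 - 1)) := by
    rw [resM_eq, resM_eq, hresG, hresJ] at hR
    rw [← hR]
    congr 3
    have h1 : algebraMap ℂ[X] (RatFunc ℂ) (C w * (X ^ a1 * P j0))
        = algebraMap ℂ (RatFunc ℂ) w * algebraMap ℂ[X] (RatFunc ℂ) Q := by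
      rw [map_mul]; rfl
    rw [h1, Derivation.leibniz, Derivation.map_algebraMap, smul_zero, add_zero, smul_eq_mul]
    have hwne : algebraMap ℂ (RatFunc ℂ) w ≠ 0 := by
      rw [Ne, map_eq_zero]; exact hW
    have hQne := am_ne hQ0
    field_simp
  obtain ⟨A, hAne, hAeq⟩ := sol_poly Q hQ0 n a hapos w' hW' (n1 - 1) R hR'
  have hdeg := coeff_resI (g j0) (gc 0 j0) (gI j0) m (hgc 0 j0) (hgI j0)
  have hbr := bracket_tw (P j0) hPj0 m a0 n0 a1 n1 hdeg.1 hm hn0 hn1 S h0S (by
      intro c hc h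
      obtain ⟨j, hj⟩ := hPS c hc
      rw [hlam j, eval_mul, h, mul_zero] at hj
      exact hj rfl) (by
      intro h
      by_cases ha1 : 0 < a1
      · have h1 := hJ2' ha1
        have h2 := hJ1.2
        have h3 : (n1 - 1) * a = (n1 - 1) * a0 + (n1 - 1) * a1 + (n1 - 1) * m := by
          rw [ha]; ring
        have h4 : (n1 - 1) * a1 + a1 = a1 * n1 := by
          have : n1 = (n1 - 1) + 1 := by omega
          conv_rhs => rw [this]
          ring
        have h5 : n * (a1 + (P j0).rootMultiplicity 0)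
            = a1 * n0 + a1 * n1 + n * (P j0).rootMultiplicity 0 := by
          rw [hn]; ring
        have h6 : 0 ≤ n * (P j0).rootMultiplicity 0 := Nat.zero_le _
        show (n1 - 1) * a < n * (a1 + (P j0).rootMultiplicity 0)
        omega
      · have h1 : a1 = 0 := by omega
        have h2 := hz1 h1
        rw [h2, Nat.sub_self, zero_mul]
        exact Nat.mul_pos (by omega) h) hz1 (by
      intro h
      by_cases ha0 : 0 < a0
      · have h1 := hJ2 ha0
        have h2 := hJ1.1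
        have h3 : (n0 - 1) * a = (n0 - 1) * a0 + (n0 - 1) * a1 + (n0 - 1) * m := by
          rw [ha]; ring
        have h4 : (n0 - 1) * a0 + a0 = a0 * n0 := by
          have : n0 = (n0 - 1) + 1 := by omega
          conv_rhs => rw [this]
          ring
        have h5 : n * (a0 + (m - (P j0).natDegree))
            = a0 * n0 + a0 * n1 + n * (m - (P j0).natDegree) := by
          rw [hn]; ring
        have h6 : 0 ≤ n * (m - (P j0).natDegree) := Nat.zero_le _
        show (n0 - 1) * a < n * (a0 + (m - (P j0).natDegree))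
        omega
      · have h1 : a0 = 0 := by omega
        have h2 := hz0 h1
        rw [h2, Nat.sub_self, zero_mul]
        exact Nat.mul_pos (by omega) h) hz0 w' hW' A hAne s0 hs (by rw [hs]; exact hAeq)
  refine ⟨fun c => (P j0).rootMultiplicity c, m - (P j0).natDegree, ?_, ?_, hbr.1, hbr.2.1,
    hbr.2.2.1, hbr.2.2.2⟩
  · intro c
    have h1 := ord_comp (P j0) hPj0 c
    constructor
    · intro j k hk
      rw [hPc, hlam j, mul_comp, C_comp, coeff_C_mul, h1.1 k hk, mul_zero]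
    · refine ⟨j0, ?_⟩
      rw [hPc]
      exact h1.2
  · constructor
    · intro j k hk
      have h1 := (coeff_resI (g j) (gc 0 j) (gI j) m (hgc 0 j) (hgI j)).2.2 k (by omega)
      have h2 : res0 (gc 0 j) = C (lam j) * P j0 := hlam j
      rw [h1, h2, coeff_C_mul, coeff_eq_zero_of_natDegree_lt (by omega), mul_zero]
    · refine ⟨j0, ?_⟩
      rw [hdeg.2.2 _ (by omega)]
      have h3 : m - (m - (P j0).natDegree) = (P j0).natDegree := by
        have := hdeg.1
        have h4 : (P j0).natDegree ≤ m := this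
        omega
      rw [h3]
      exact leadingCoeff_ne_zero.2 hPj0

end Pool.Agent.Helper748.TZ
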