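import Pool.Agent.W574.CN.Defs

set_option autoImplicit false

/-! # The twisted topological zeta functions of ideals of `ℂ[x, y]` and of cones

The twisted topological zeta function `Z^(e)` is the sum
`∑_I χ(E_I°) ∏_{i ∈ I} 1 / (N_i s + ν_i)` over the sets `I` such that `e` divides all the numbers
`N_i`, `i ∈ I`. It is computed with the same sequences of blow-ups of points as the topological
zeta function, see `Pool.Agent.W574.SM.ZetaDefs` and `Pool.Agent.W574.CN.Defs`. -/

namespace Pool.Agent.Helper748.TZ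

open MvPolynomial Pool.Agent.W574.SM Pool.Agent.W574.CN

/-- The rational function `1 / (n + a s)` if `e` divides `a`, and `0` otherwise. -/
noncomputable def tfac (e a n : ℕ) : RatFunc ℂ := if e ∣ a then fac a n else 0

/-- `TwLocal e g a₀ n₀ a₁ n₁ Z`: the origin of the plane, with the coordinates `u = X 0` and
`v = X 1`, is a point of a partial resolution, near which the ideal is `u ^ a₀ v ^ a₁ (g_j)` and
the canonical divisor is `(n₀ - 1) [u = 0] + (n₁ - 1) [v = 0]`. (So `(a_i, n_i)` are the numbers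
`(N_E, ν_E)` of the exceptional curve `u = 0` resp. `v = 0`, and `(a_i, n_i) = (0, 1)` if there is
no exceptional curve.) `Z` is the contribution of the origin to the twisted topological zeta
function: the sum over the sets `I` of divisors of a resolution, such that `e` divides all `N_i`,
`i ∈ I`, of the terms `χ(E_I° ∩ h⁻¹(0)) ∏_{i ∈ I} 1 / (N_i s + ν_i)`. The rules are the same as for
the topological zeta function, see `LocalZeta`:

* `unit`: some `g_j` does not vanish at the origin;
* `curveV`, `curveU`: near the origin, the ideal `(g_j)` is `(h ^ m)`, where the curve `h = 0` is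
  smooth at the origin and transversal to the exceptional curve `u = 0` (resp. `v = 0`), the only
  one through the origin (if any);
* `blowup`: the origin is blown up. The number `m` is the multiplicity of the ideal `(g_j)`, the
  new exceptional curve `E` has `N_E = a₀ + a₁ + m` and `ν_E = n₀ + n₁`, and `gc c` and `gI`
  are the transforms of the ideal at the points of `E` (the directions `v = c u` and `u = 0`).
  At the points `c ∉ S` the transform of the ideal is trivial and there is no other exceptional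
  curve; the set of these points has the Euler characteristic `1 - |S|`. -/
inductive TwLocal {ι : Type} (e : ℕ) :
    (ι → MvPolynomial (Fin 2) ℂ) → ℕ → ℕ → ℕ → ℕ → RatFunc ℂ → Prop
  | unit (g : ι → MvPolynomial (Fin 2) ℂ) (a₀ n₀ a₁ n₁ : ℕ) (j : ι)
      (hj : constantCoeff (g j) ≠ 0) :
      TwLocal e g a₀ n₀ a₁ n₁ (tfac e a₀ n₀ * tfac e a₁ n₁)
  | curveV (g : ι → MvPolynomial (Fin 2) ℂ) (a₀ n₀ m : ℕ) (hm : 1 ≤ m)
      (h : MvPolynomial (Fin 2) ℂ) (k : ι → MvPolynomial (Fin 2) ℂ)
      (hg : ∀ j, g j = h ^ m * k j) (h0 : constantCoeff h = 0)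
      (h1 : constantCoeff (pderiv 1 h) ≠ 0) (j : ι) (hj : constantCoeff (k j) ≠ 0) :
      TwLocal e g a₀ n₀ 0 1 (tfac e a₀ n₀ * tfac e m 1)
  | curveU (g : ι → MvPolynomial (Fin 2) ℂ) (a₁ n₁ m : ℕ) (hm : 1 ≤ m)
      (h : MvPolynomial (Fin 2) ℂ) (k : ι → MvPolynomial (Fin 2) ℂ)
      (hg : ∀ j, g j = h ^ m * k j) (h0 : constantCoeff h = 0)
      (h1 : constantCoeff (pderiv 0 h) ≠ 0) (j : ι) (hj : constantCoeff (k j) ≠ 0) :
      TwLocal e g 0 1 a₁ n₁ (tfac e a₁ n₁ * tfac e m 1)
  | blowup (g : ι → MvPolynomial (Fin 2) ℂ) (a₀ n₀ a₁ n₁ m : ℕ) (hm : 1 ≤ m)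
      (gc : ℂ → ι → MvPolynomial (Fin 2) ℂ) (gI : ι → MvPolynomial (Fin 2) ℂ)
      (hgc : ∀ c j, aeval (chart c) (g j) = X 0 ^ m * gc c j)
      (hgI : ∀ j, aeval chartI (g j) = X 1 ^ m * gI j)
      (S : Finset ℂ) (h0S : 0 ∈ S) (hS : ∀ c ∉ S, ∃ j, constantCoeff (gc c j) ≠ 0)
      (Zc : ℂ → RatFunc ℂ) (ZI : RatFunc ℂ)
      (h0 : TwLocal e (gc 0) (a₀ + a₁ + m) (n₀ + n₁) a₁ n₁ (Zc 0))
      (hc : ∀ c ∈ S, c ≠ 0 → TwLocal e (gc c) (a₀ + a₁ + m) (n₀ + n₁) 0 1 (Zc c))
      (hI : TwLocal e gI a₀ n₀ (a₀ + a₁ + m) (n₀ + n₁) ZI) :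
      TwLocal e g a₀ n₀ a₁ n₁
        (ZI + ∑ c ∈ S, Zc c + (1 - (S.card : RatFunc ℂ)) * tfac e (a₀ + a₁ + m) (n₀ + n₁))

/-- `Z` is a rational function of the form
`χ₀ + ∑_i χ_i [e ∣ m_i] / (1 + m_i s) + ∑_{P ∈ S} Z_P`, where the `χ` are integers, the `m_i` are
the multiplicities of curves in the zero locus of the ideal, and `Z_P` is the contribution of the
point `P` to the twisted zeta function, computed by a sequence of blow-ups of points; compare
`PlaneZeta`. -/
def TwPlane {ι : Type} (e : ℕ) (f : ι → MvPolynomial (Fin 2) ℂ) (Z : RatFunc ℂ) : Prop :=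
  ∃ (χ₀ : ℤ) (r : ℕ) (h : Fin r → MvPolynomial (Fin 2) ℂ) (m : Fin r → ℕ) (χ : Fin r → ℤ)
    (S : Finset (Fin 2 → ℂ)) (ZP : (Fin 2 → ℂ) → RatFunc ℂ),
    (∀ i, IsCurve f (h i) (m i)) ∧
    (∀ P ∈ S, TwLocal e (fun j => translate P (f j)) 0 1 0 1 (ZP P)) ∧
    Z = (χ₀ : RatFunc ℂ) + ∑ i, (χ i : RatFunc ℂ) * tfac e (m i) 1 + ∑ P ∈ S, ZP P

/-- `Z` is (of the form of) the twisted topological zeta function `Z^(e)` of the form
`f(x₀, x₁, x₂)` of degree `d`: `Z = (Z₀ + Z₁ + Z₂) [e ∣ d] / (d s + 3)`, where `Z_i` is a sum of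
contributions of the polynomial `f |_{x_i = 1}` in two variables, see `TwPlane`.

Explanation, compare `ConeZeta`: the blow-up of the origin of `ℂ ^ 3` is the total space `X'` of
the line bundle `O(-1)` over the projective plane, the exceptional divisor `E` has the numerical
data `(d, 3)`, and an embedded resolution `Y → P ^ 2` of the curve `f = 0` by blow-ups of points
gives the embedded resolution `X' ×_{P ^ 2} Y` of the surface `f = 0`. The strata which are not
contained in the transform of `E` are fibred by `ℂ ^ *` and have the Euler characteristic `0`, and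
to the strata in the transform of `E` belong the sets `I ∪ {E}`, which count if `e` divides `d` and
all `N_i`, `i ∈ I`. -/
def TwCone (e : ℕ) (f : MvPolynomial (Fin 3) ℂ) (d : ℕ) (Z : RatFunc ℂ) : Prop :=
  ∃ Zc : Fin 3 → RatFunc ℂ, (∀ i, TwPlane e (fun _ : Unit => deh i f) (Zc i)) ∧
    Z = (∑ i, Zc i) * tfac e d 3

end Pool.Agent.Helper748.TZ
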