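import Pool.Agent.helper748_tw.Node
import Pool.Agent.W574.CN.Cone

set_option autoImplicit false
set_option linter.unusedSectionVars false
set_option linter.unusedVariables false

/-! # The poles of the twisted topological zeta function of a ternary form -/

namespace Pool.Agent.Helper748.TZ

open MvPolynomial Pool.Agent.W574.SM Pool.Agent.W574.CN

variable {ι : Type} [Fintype ι] [DecidableEq ι]

theorem plane_tw (e : ℕ) (f : ι → MP) (b : Polynomial ℂ) (hb : IsFunctionalEq f b) (Z : RatFunc ℂ)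
    (hZ : TwPlane e f Z) (s0 : ℂ) (hs0 : Z.denom.eval s0 = 0) : b.eval s0 = 0 := by
  by_contra hne
  apply Reg_denom s0 Z ?_ hs0
  obtain ⟨χ₀, r, h, m, χ, S, ZP, hC, hP, rfl⟩ := hZ
  have hint : ∀ n : ℤ, (n : RatFunc ℂ) ∈ Reg s0 := fun n => intCast_mem _ n
  refine (Reg s0).add_mem ((Reg s0).add_mem (hint χ₀) ?_) ?_
  · refine Subring.sum_mem _ fun i _ => (Reg s0).mul_mem (hint _) (tfac_mem _ _ _ _ ?_)
    intro h2
    apply hne
    have hm : 1 ≤ m i := (hC i).2.1
    have hmc : (m i : ℂ) ≠ 0 := Nat.cast_ne_zero.2 (by omega)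
    have h3 : s0 = -1 / (m i : ℂ) := by
      rw [eq_div_iff hmc]
      push_cast at h2
      linear_combination h2
    rw [h3]
    exact curve_root f b hb (h i) (m i) (hC i)
  · refine Subring.sum_mem _ fun P hPS => ?_
    obtain ⟨c0, c1, _, _, h1⟩ := local_tw e f b hb s0 hne (hP P hPS) (inv_initial f s0 P)
    rw [tfac_zero_one, mul_one, mul_one] at h1
    have h2 := (Reg s0).add_mem ((Reg s0).add_mem h1 (Reg_C s0 c1)) (Reg_C s0 c0)
    rw [sub_add_cancel, sub_add_cancel] at h2
    exact h2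

/-- The poles of the twisted topological zeta functions of a form are roots of `b`, if `-3/d` is a
root of `b`. -/
theorem cone_tw (e : ℕ) (f : MvPolynomial (Fin 3) ℂ) (d : ℕ) (hd : 0 < d)
    (hf : f.IsHomogeneous d) (b : Polynomial ℂ) (hb : IsFunctionalEq (fun _ : Unit => f) b)
    (hr : b.eval (-3 / d : ℂ) = 0)
    (Z : RatFunc ℂ) (hZ : TwCone e f d Z) (s0 : ℂ) (hs0 : Z.denom.eval s0 = 0) :
    b.eval s0 = 0 := by
  by_contra hne
  obtain ⟨Zc, hZc, rfl⟩ := hZ
  apply Reg_denom s0 _ ?_ hs0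
  have hdc : (d : ℂ) ≠ 0 := Nat.cast_ne_zero.2 hd.ne'
  refine (Reg s0).mul_mem (Subring.sum_mem _ fun i _ => mem_Reg_of_denom s0 _ ?_)
    (tfac_mem e d 3 s0 ?_)
  · intro h0
    exact hne (plane_tw e _ b (functionalEq_deh i (fun _ : Unit => f) d (fun _ => hf) b hb) _
      (hZc i) s0 h0)
  · intro h0
    have h1 : s0 = -3 / d := by
      rw [eq_div_iff hdc]
      push_cast at h0
      linear_combination h0
    apply hne
    rw [h1]
    exact hr

end Pool.Agent.Helper748.TZ
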