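import Pool.Agent.helper748_tw.Blow
import Pool.Agent.helper748_tw.Defs

set_option autoImplicit false
set_option linter.unusedSectionVars false
set_option linter.unusedVariables false

/-! # The poles of the contribution of a point, twisted version

The proof follows `Pool.Agent.W574.SM.local_main`, with an additional divisibility condition. -/

namespace Pool.Agent.Helper748.TZ

open Polynomial Pool.Agent.W574.SM

variable {ι : Type} [Fintype ι] [DecidableEq ι]

theorem tfac_zero_one (e : ℕ) : tfac e 0 1 = 1 := by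
  rw [tfac, if_pos (dvd_zero e), fac_zero_one]

theorem tfac_mem (e a n : ℕ) (s0 : ℂ) (h : (n : ℂ) + a * s0 ≠ 0) : tfac e a n ∈ Reg s0 := by
  rw [tfac]
  split_ifs
  · exact fac_mem a n s0 h
  · exact (Reg s0).zero_mem

/-- the conclusion at a node -/
def GoodT (e : ℕ) (s0 : ℂ) (g : ι → MP) (a0 n0 a1 n1 : ℕ) (Z : RatFunc ℂ) : Prop :=
  ∃ c0 c1 : ℂ,
    ((n0 : ℂ) + a0 * s0 = 0 → e ∣ a0 → ∀ μ, Ord0 g μ →
      c0 * ((n1 : ℂ) + s0 * ((a1 + μ : ℕ) : ℂ)) = if e ∣ a1 + μ then 1 else 0) ∧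
    ((n1 : ℂ) + a1 * s0 = 0 → e ∣ a1 → ∀ μ, Ord1 g μ →
      c1 * ((n0 : ℂ) + s0 * ((a0 + μ : ℕ) : ℂ)) = if e ∣ a0 + μ then 1 else 0) ∧
    Z - RatFunc.C c0 * tfac e a0 n0 - RatFunc.C c1 * tfac e a1 n1 ∈ Reg s0

theorem goodT_leaf (e : ℕ) (s0 : ℂ) (g : ι → MP) (a0 n0 a1 n1 a n : ℕ)
    (hA0 : (n0 : ℂ) + a0 * s0 = 0) (hz0 : a0 = 0 → n0 = 1) (hA1 : (n1 : ℂ) + a1 * s0 ≠ 0)
    (hA : (n : ℂ) + a * s0 ≠ 0) (μ : ℕ) (hμ : Ord0 g μ) (haμ : a1 + μ = a)
    (hrel : (n1 : ℂ) + s0 * ((a1 + μ : ℕ) : ℂ) = n + a * s0) :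
    GoodT e s0 g a0 n0 a1 n1 (tfac e a0 n0 * tfac e a n) := by
  refine ⟨if e ∣ a then 1 / ((n : ℂ) + a * s0) else 0, 0, ?_, fun h => absurd h hA1, ?_⟩
  · intro _ _ ν hν
    rw [← hμ.unique hν, hrel, haμ]
    split_ifs
    · rw [one_div, inv_mul_cancel₀ hA]
    · rw [zero_mul]
  · rw [map_zero, zero_mul, sub_zero, tfac, tfac]
    split_ifs
    · exact fac_mul_fac a0 n0 a n s0 (a_ne_zero hz0 hA0) hA0 hA
    · rw [map_zero, zero_mul, mul_zero, sub_zero]; exact (Reg s0).zero_mem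
    · rw [mul_zero, zero_mul, sub_zero]; exact (Reg s0).zero_mem
    · rw [mul_zero, mul_zero, sub_zero]; exact (Reg s0).zero_mem

theorem goodT_leaf' (e : ℕ) (s0 : ℂ) (g : ι → MP) (a0 n0 a1 n1 a n : ℕ)
    (hA1 : (n1 : ℂ) + a1 * s0 = 0) (hz1 : a1 = 0 → n1 = 1) (hA0 : (n0 : ℂ) + a0 * s0 ≠ 0)
    (hA : (n : ℂ) + a * s0 ≠ 0) (μ : ℕ) (hμ : Ord1 g μ) (haμ : a0 + μ = a)
    (hrel : (n0 : ℂ) + s0 * ((a0 + μ : ℕ) : ℂ) = n + a * s0) :
    GoodT e s0 g a0 n0 a1 n1 (tfac e a1 n1 * tfac e a n) := by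
  refine ⟨0, if e ∣ a then 1 / ((n : ℂ) + a * s0) else 0, fun h => absurd h hA0, ?_, ?_⟩
  · intro _ _ ν hν
    rw [← hμ.unique hν, hrel, haμ]
    split_ifs
    · rw [one_div, inv_mul_cancel₀ hA]
    · rw [zero_mul]
  · rw [map_zero, zero_mul, sub_zero, tfac, tfac]
    split_ifs
    · exact fac_mul_fac a1 n1 a n s0 (a_ne_zero hz1 hA1) hA1 hA
    · rw [map_zero, zero_mul, mul_zero, sub_zero]; exact (Reg s0).zero_mem
    · rw [mul_zero, zero_mul, sub_zero]; exact (Reg s0).zero_mem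
    · rw [mul_zero, mul_zero, sub_zero]; exact (Reg s0).zero_mem

theorem goodT_reg (e : ℕ) (s0 : ℂ) (g : ι → MP) (a0 n0 a1 n1 : ℕ) (Z : RatFunc ℂ)
    (hA0 : (n0 : ℂ) + a0 * s0 ≠ 0) (hA1 : (n1 : ℂ) + a1 * s0 ≠ 0) (hZ : Z ∈ Reg s0) :
    GoodT e s0 g a0 n0 a1 n1 Z := by
  refine ⟨0, 0, fun h => absurd h hA0, fun h => absurd h hA1, ?_⟩
  rw [map_zero, zero_mul, zero_mul, sub_zero, sub_zero]
  exact hZ

theorem eq_ite_of_mul {c x : ℂ} {P : Prop} [Decidable P] (hx : x ≠ 0)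
    (h : c * x = if P then 1 else 0) : c = if P then 1 / x else 0 := by
  split_ifs at h ⊢
  · exact eq_div_of_mul_eq hx h
  · exact (mul_eq_zero.1 h).resolve_right hx

/-- **The poles of the contribution of a point.** -/
theorem local_tw (e : ℕ) (f : ι → MP) (b : ℂ[X]) (hb : IsFunctionalEq f b) (s0 : ℂ)
    (hs0 : b.eval s0 ≠ 0) {g : ι → MP} {a0 n0 a1 n1 : ℕ} {Z : RatFunc ℂ}
    (hZ : TwLocal e g a0 n0 a1 n1 Z) : Inv f s0 g a0 n0 a1 n1 → GoodT e s0 g a0 n0 a1 n1 Z := by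
  classical
  induction hZ with
  | unit g a0 n0 a1 n1 j hj =>
    intro inv
    have ho0 : Ord0 g 0 := ⟨fun i k hk => absurd hk (Nat.not_lt_zero k),
      ⟨j, by rw [coeff_res0]; exact hj⟩⟩
    have ho1 : Ord1 g 0 := ⟨fun i k hk => absurd hk (Nat.not_lt_zero k),
      ⟨j, by rw [coeff_res1]; exact hj⟩⟩
    by_cases hA0 : (n0 : ℂ) + a0 * s0 = 0
    · have hA1 : (n1 : ℂ) + a1 * s0 ≠ 0 := by
        have := inv.hH0 hA0 0 ho0
        rw [add_zero] at this
        intro h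
        apply this
        rw [← h]
        ring
      exact goodT_leaf e s0 g a0 n0 a1 n1 a1 n1 hA0 inv.hz0 hA1 hA1 0 ho0 (add_zero _)
        (by rw [add_zero]; ring)
    · by_cases hA1 : (n1 : ℂ) + a1 * s0 = 0
      · rw [mul_comm]
        exact goodT_leaf' e s0 g a0 n0 a1 n1 a0 n0 hA1 inv.hz1 hA0 hA0 0 ho1 (add_zero _)
          (by rw [add_zero]; ring)
      · exact goodT_reg e s0 g a0 n0 a1 n1 _ hA0 hA1
          ((Reg s0).mul_mem (tfac_mem _ _ _ _ hA0) (tfac_mem _ _ _ _ hA1))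
  | curveV g a0 n0 m hm h k hg h0 h1 j hj =>
    intro inv
    have hA1 : ((1 : ℕ) : ℂ) + ((0 : ℕ) : ℂ) * s0 ≠ 0 := by simp
    have hm1 : ((1 : ℕ) : ℂ) + (m : ℂ) * s0 ≠ 0 := by
      intro h2
      apply hs0
      have hmc : (m : ℂ) ≠ 0 := Nat.cast_ne_zero.2 (by omega)
      have h3 : s0 = -1 / (m : ℂ) := by
        rw [eq_div_iff hmc]
        push_cast at h2
        linear_combination h2
      rw [h3]
      obtain ⟨ξ, W, W', hW, hW', hf, hJ⟩ := inv.geom
      refine node_curveV f b hb ξ W W' hW hW' a0 n0 m (by omega) h k ?_ ?_ h0 h1 j hj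
      · intro i
        rw [hf, hg, pow_zero, mul_one]
      · rw [hJ, Nat.sub_self, pow_zero, mul_one]
    have ho := ord0_curve g m h k hg h0 h1 j hj
    by_cases hA0 : (n0 : ℂ) + a0 * s0 = 0
    · exact goodT_leaf e s0 g a0 n0 0 1 m 1 hA0 inv.hz0 hA1 hm1 m ho (zero_add _)
        (by push_cast; ring)
    · exact goodT_reg e s0 g a0 n0 0 1 _ hA0 hA1
        ((Reg s0).mul_mem (tfac_mem _ _ _ _ hA0) (tfac_mem _ _ _ _ hm1))
  | curveU g a1 n1 m hm h k hg h0 h1 j hj =>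
    intro inv
    have hA0 : ((1 : ℕ) : ℂ) + ((0 : ℕ) : ℂ) * s0 ≠ 0 := by simp
    have hm1 : ((1 : ℕ) : ℂ) + (m : ℂ) * s0 ≠ 0 := by
      intro h2
      apply hs0
      have hmc : (m : ℂ) ≠ 0 := Nat.cast_ne_zero.2 (by omega)
      have h3 : s0 = -1 / (m : ℂ) := by
        rw [eq_div_iff hmc]
        push_cast at h2
        linear_combination h2
      rw [h3]
      obtain ⟨ξ, W, W', hW, hW', hf, hJ⟩ := inv.geom
      refine node_curveU f b hb ξ W W' hW hW' a1 n1 m (by omega) h k ?_ ?_ h0 h1 j hj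
      · intro i
        rw [hf, hg, pow_zero, one_mul]
      · rw [hJ, Nat.sub_self, pow_zero, one_mul]
    have ho := ord1_curve g m h k hg h0 h1 j hj
    by_cases hA1 : (n1 : ℂ) + a1 * s0 = 0
    · exact goodT_leaf' e s0 g 0 1 a1 n1 m 1 hA1 inv.hz1 hA0 hm1 m ho (zero_add _)
        (by push_cast; ring)
    · exact goodT_reg e s0 g 0 1 a1 n1 _ hA0 hA1
        ((Reg s0).mul_mem (tfac_mem _ _ _ _ hA1) (tfac_mem _ _ _ _ hm1))
  | blowup g a0 n0 a1 n1 m hm gc gI hgc hgI S h0S hS Zc ZI h0 hc hI ih0 ihc ihI =>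
    intro inv
    have hn0 := inv.hn0
    have hn1 := inv.hn1
    have hmult : IsMult g m := ⟨⟨gc 0, hgc 0⟩, ⟨gI, hgI⟩⟩
    have hJ1 := inv.hJ1 m hmult
    -- a generator with nonzero leading form
    obtain ⟨c1, hc1⟩ := Infinite.exists_notMem_finset S
    obtain ⟨j0, hj0⟩ := hS c1 hc1
    have hresc : ∀ c j, res0 (gc c j) = (res0 (gc 0 j)).comp (X + C c) := fun c j =>
      res0_chart (g j) (gc 0 j) (gc c j) m c (hgc 0 j) (hgc c j)
    have hP0 : res0 (gc 0 j0) ≠ 0 := by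
      intro h
      apply hj0
      rw [← coeff_res0, hresc, h, zero_comp, coeff_zero]
    have hdeg := coeff_resI (g j0) (gc 0 j0) (gI j0) m (hgc 0 j0) (hgI j0)
    have hPc : ∀ c, res0 (gc c j0) ≠ 0 ∧ (res0 (gc c j0)).natDegree ≤ m := by
      intro c
      have h1 : (X + C c : ℂ[X]).natDegree = 1 := natDegree_X_add_C c
      constructor
      · intro h
        have h2 := ord_comp (res0 (gc 0 j0)) hP0 c
        rw [hresc] at h
        rw [h, coeff_zero] at h2
        exact h2.2 rfl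
      · rw [hresc, natDegree_comp, h1, mul_one]
        exact hdeg.1
    have hPI : res1 (gI j0) ≠ 0 := by
      intro h
      have h2 := hdeg.2.2 (m - (res0 (gc 0 j0)).natDegree) (by omega)
      rw [h, coeff_zero] at h2
      have h3 : m - (m - (res0 (gc 0 j0)).natDegree) = (res0 (gc 0 j0)).natDegree := by
        have := hdeg.1
        omega
      rw [h3] at h2
      exact hP0 (leadingCoeff_eq_zero.1 h2.symm)
    have hmc : ∀ c m', IsMult (gc c) m' → m' ≤ m := by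
      intro c m' hm'
      obtain ⟨g', hg'⟩ := hm'.2
      exact le_of_dvd (hPc c).1 (hPc c).2 (res0_of_chartI (hg' j0))
    have hmI : ∀ m', IsMult gI m' → m' ≤ m := by
      intro m' hm'
      obtain ⟨g', hg'⟩ := hm'.1
      exact le_of_dvd hPI hdeg.2.1 (res1_of_chart0 (hg' j0))
    have hresI : ∀ j, res0 (g j) = X ^ m * res0 (gI j) := fun j => res0_of_chartI (hgI j)
    have hres0 : ∀ j, res1 (g j) = X ^ m * res1 (gc 0 j) := fun j => res1_of_chart0 (hgc 0 j)
    -- the analysis of the new exceptional curve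
    have han := fun hA => blow_tw f b hb g a0 n0 a1 n1 hn0 hn1 inv.geom m hm gc gI hgc hgI S
      h0S hS hJ1 inv.hJ2 inv.hJ2' inv.hz0 inv.hz1 s0 hs0 hA
    have haz : a0 + a1 + m = 0 → n0 + n1 = 1 := by omega
    -- the invariants of the children
    have inv0 : Inv f s0 (gc 0) (a0 + a1 + m) (n0 + n1) a1 n1 :=
      { geom := geom_chart0 f g (gc 0) a0 n0 a1 n1 hn0 hn1 inv.geom m (hgc 0)
        hn0 := by omega
        hn1 := hn1
        hz0 := haz
        hz1 := inv.hz1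
        hJ1 := fun m' hm' => ⟨arith3 a0 n0 a1 n1 m m' hn0 hn1 (hmc 0 m' hm') hJ1.1 hJ1.2,
          (Nat.mul_le_mul_left _ (hmc 0 m' hm')).trans hJ1.2⟩
        hJ2 := fun _ => arith1 a0 n0 a1 n1 m hn0 hn1 hm inv.hz0 inv.hJ2
        hJ2' := fun ha1 => arith2 a0 n0 a1 n1 m hn0 hn1 ha1 hJ1.2 inv.hJ2'
        hH0 := by
          intro hA μ' hμ'
          obtain ⟨μ, μI, hμ, hμI, h2, h3, h4, h5⟩ := han hA
          rwa [← (hμ 0).unique hμ']
        hH1 := by
          intro hA1 μ' hμ'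
          have h2 := inv.hH1 hA1 (m + μ') (hμ'.shift hres0)
          intro h3
          apply h2
          push_cast at h3 ⊢
          linear_combination h3 - hA1 }
    have invc : ∀ c, c ≠ 0 → Inv f s0 (gc c) (a0 + a1 + m) (n0 + n1) 0 1 := fun c hc0 =>
      { geom := geom_chart f g (gc c) a0 n0 a1 n1 hn0 hn1 inv.geom m c hc0 (hgc c)
        hn0 := by omega
        hn1 := le_rfl
        hz0 := haz
        hz1 := fun _ => rfl
        hJ1 := fun m' hm' => ⟨arith3 a0 n0 a1 n1 m m' hn0 hn1 (hmc c m' hm') hJ1.1 hJ1.2,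
          by simp⟩
        hJ2 := fun h => by rw [mul_zero, mul_one]; exact h
        hJ2' := fun h => absurd h (lt_irrefl 0)
        hH0 := by
          intro hA μ' hμ'
          obtain ⟨μ, μI, hμ, hμI, h2, h3, h4, h5⟩ := han hA
          have h6 := h4 c hc0
          rw [(hμ c).unique hμ'] at h6
          rw [zero_add]
          push_cast
          exact h6
        hH1 := by
          intro hA1
          simp at hA1 }
    have invI : Inv f s0 gI a0 n0 (a0 + a1 + m) (n0 + n1) :=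
      { geom := geom_chartI f g gI a0 n0 a1 n1 hn0 hn1 inv.geom m hgI
        hn0 := hn0
        hn1 := by omega
        hz0 := inv.hz0
        hz1 := haz
        hJ1 := fun m' hm' => ⟨(Nat.mul_le_mul_left _ (hmI m' hm')).trans hJ1.1,
          arith3 a0 n0 a1 n1 m m' hn0 hn1 (hmI m' hm') hJ1.1 hJ1.2⟩
        hJ2 := fun ha0 => by
          have := arith2 a1 n1 a0 n0 m hn1 hn0 ha0 hJ1.1 inv.hJ2
          rwa [add_comm a1 a0, add_comm n1 n0] at this
        hJ2' := fun _ => by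
          have := arith1 a1 n1 a0 n0 m hn1 hn0 hm inv.hz1 inv.hJ2'
          rwa [add_comm a1 a0, add_comm n1 n0] at this
        hH0 := by
          intro hA0 μ' hμ'
          have h2 := inv.hH0 hA0 (m + μ') (hμ'.shift hresI)
          intro h3
          apply h2
          push_cast at h3 ⊢
          linear_combination h3 - hA0
        hH1 := by
          intro hA μ' hμ'
          obtain ⟨μ, μI, hμ, hμI, h2, h3, h4, h5⟩ := han hA
          rwa [← hμI.unique hμ'] }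
    obtain ⟨c00, c01, h00, h01, h02⟩ := ih0 inv0
    obtain ⟨cI0, cI1, hI0, hI1, hI2⟩ := ihI invI
    have hcc : ∀ c ∈ S.erase 0, ∃ κ : ℂ,
        (((n0 + n1 : ℕ) : ℂ) + ((a0 + a1 + m : ℕ) : ℂ) * s0 = 0 → e ∣ a0 + a1 + m →
          ∀ μ, Ord0 (gc c) μ → κ * (1 + s0 * (μ : ℂ)) = if e ∣ μ then 1 else 0) ∧
        Zc c - RatFunc.C κ * tfac e (a0 + a1 + m) (n0 + n1) ∈ Reg s0 := by
      intro c hcS
      rw [Finset.mem_erase] at hcS
      obtain ⟨κ, κ', h2, h3, h4⟩ := ihc c hcS.2 hcS.1 (invc c hcS.1)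
      refine ⟨κ, ?_, ?_⟩
      · intro hA he μ hμ
        have h5 := h2 hA he μ hμ
        rw [zero_add, Nat.cast_one] at h5
        exact h5
      · have h5 := (Reg s0).add_mem h4 (Reg_C s0 κ')
        rw [tfac_zero_one, mul_one, sub_add_cancel] at h5
        exact h5
    choose! κ hκ1 hκ2 using hcc
    set facE := tfac e (a0 + a1 + m) (n0 + n1) with hfacE
    set β : ℂ := cI1 + c00 + ∑ c ∈ S.erase 0, κ c + 1 - S.card with hβ
    have hβE : RatFunc.C β * facE ∈ Reg s0 := by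
      by_cases hA : ((n0 + n1 : ℕ) : ℂ) + ((a0 + a1 + m : ℕ) : ℂ) * s0 = 0
      · by_cases he : e ∣ a0 + a1 + m
        · obtain ⟨μ, μI, hμ, hμI, h2, h3, h4, h5⟩ := han hA
          have e2 := eq_ite_of_mul h3 (hI1 hA he μI hμI)
          have e3 := eq_ite_of_mul h2 (h00 hA he (μ 0) (hμ 0))
          have e4 : ∀ c ∈ S.erase 0, κ c = if e ∣ μ c then 1 / (1 + s0 * (μ c : ℂ)) else 0 := by
            intro c hcS
            exact eq_ite_of_mul (h4 c (Finset.mem_erase.1 hcS).1) (hκ1 c hcS hA he (μ c) (hμ c))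
          have h6 : β = 0 := by
            rw [hβ, Finset.sum_congr rfl e4, e2, e3]
            exact h5 e he
          rw [h6, map_zero, zero_mul]
          exact (Reg s0).zero_mem
        · rw [hfacE, tfac, if_neg he, mul_zero]
          exact (Reg s0).zero_mem
      · exact (Reg s0).mul_mem (Reg_C s0 β) (tfac_mem _ _ _ _ hA)
    refine ⟨cI0, c01, ?_, ?_, ?_⟩
    · intro hA0 he0 μ hμ
      obtain ⟨ν, rfl, hν⟩ := hμ.unshift hresI
      have h2 := hI0 hA0 he0 ν hν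
      have h3 : e ∣ a0 + a1 + m + ν ↔ e ∣ a1 + (m + ν) := by
        rw [show a0 + a1 + m + ν = a0 + (a1 + (m + ν)) by ring]
        exact Nat.dvd_add_right he0
      rw [← if_congr h3 rfl rfl, ← h2]
      congr 1
      push_cast
      linear_combination -hA0
    · intro hA1 he1 μ hμ
      obtain ⟨ν, rfl, hν⟩ := hμ.unshift hres0
      have h2 := h01 hA1 he1 ν hν
      have h3 : e ∣ a0 + a1 + m + ν ↔ e ∣ a0 + (m + ν) := by
        rw [show a0 + a1 + m + ν = a1 + (a0 + (m + ν)) by ring]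
        exact Nat.dvd_add_right he1
      rw [← if_congr h3 rfl rfl, ← h2]
      congr 1
      push_cast
      linear_combination -hA1
    · have hsum : ∑ c ∈ S.erase 0, (Zc c - RatFunc.C (κ c) * facE) ∈ Reg s0 :=
        Subring.sum_mem _ fun c hcS => hκ2 c hcS
      rw [Finset.sum_sub_distrib, ← Finset.sum_mul, ← map_sum] at hsum
      have hfin := (Reg s0).add_mem ((Reg s0).add_mem ((Reg s0).add_mem h02 hI2) hsum) hβE
      have heq : ZI + ∑ c ∈ S, Zc c + (1 - (S.card : RatFunc ℂ)) * facE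
            - RatFunc.C cI0 * tfac e a0 n0 - RatFunc.C c01 * tfac e a1 n1
          = Zc 0 - RatFunc.C c00 * facE - RatFunc.C c01 * tfac e a1 n1
            + (ZI - RatFunc.C cI0 * tfac e a0 n0 - RatFunc.C cI1 * facE)
            + (∑ c ∈ S.erase 0, Zc c - RatFunc.C (∑ c ∈ S.erase 0, κ c) * facE)
            + RatFunc.C β * facE := by
        rw [← Finset.add_sum_erase S Zc h0S, hβ]
        simp only [map_sub, map_add, map_one, map_natCast]
        ring
      rw [heq]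
      exact hfin

end Pool.Agent.Helper748.TZ
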